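import Pool.Agent.Y314.AM.Cpl1

set_option autoImplicit false

open MeasureTheory

noncomputable section

namespace Pool.Agent.Y314.AM

open Pool.Agent.Y451.AM
open Pool.Agent.Y451.FM (dg)
open Pool.Agent.Y314.FM (sum_real sum_if cou_prob sum3 kap_bound)

/-- the coupling of one tile -/
theorem cpl (hC : Pool.Agent.Y451.FM.S_COU) (hE : Pool.Agent.Y451.FM.S_ENT)
    (hA : Pool.Agent.Y451.AM.S_APX) (hP : Pool.Agent.Y451.AM.S_PRD) :
    Pool.Agent.Y451.AM.S_CPL := by
  classical
  intro Γ _ _ k W F hF t ε hε
  have hBt : 0 < (t.card : ℝ) + 1 := by positivity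
  obtain ⟨r, U, Fr, hFr, hη⟩ := hA Γ k F hF (ε / ((t.card : ℝ) + 1)) (by positivity)
  have hη1 : (t.card : ℝ) * (ε / ((t.card : ℝ) + 1)) ≤ ε := by
    rw [mul_div_assoc', div_le_iff₀ hBt]
    nlinarith
  have hη0 : 0 ≤ ε / ((t.card : ℝ) + 1) := by positivity
  have hk0 : 0 ≤ Real.log k := Real.log_natCast_nonneg k
  generalize (ε / ((t.card : ℝ) + 1)) = η at hη hη1 hη0
  have hτ0 : 0 ≤ (t.card : ℝ) * η := by positivity
  refine ⟨dif W ∪ UT U t, 1 + ((UT U t).card : ℝ) * Real.sqrt ((t.card : ℝ) * Real.log k),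
    by positivity, fun A => ?_⟩
  set S : Finset Γ := dif W ∪ UT U t with hSdef
  set Z : Finset Γ := (t ×ˢ bd (dif W) A).image (fun p => p.1 * p.2) with hZdef
  have hZmem : ∀ u ∈ t, ∀ v ∈ bd (dif W) A, u * v ∈ Z := by
    intro u hu v hv
    rw [hZdef, Finset.mem_image]
    exact ⟨(u, v), Finset.mem_product.2 ⟨hu, hv⟩, rfl⟩
  -- measurability
  have hdg := hP.1 r
  have hdm : ∀ c : Fin A.card → Fin (2 ^ r + 1),
      MeasurableSet {b : Om Γ | (fun i => dg r (b (en A i))) = c} := by
    intro c
    have h1 : Measurable (fun b : Om Γ => fun i => dg r (b (en A i))) :=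
      measurable_pi_lambda _ fun i => hdg.comp (measurable_pi_apply _)
    exact h1 (measurableSet_singleton c)
  have hsg : ∀ v : Γ, Measurable fun b : Om Γ => sg F b v := by
    intro v
    exact hF.comp (hP.2.1 Γ v).measurable
  have hzm : ∀ z : Pat Γ k Z, MeasurableSet {b : Om Γ | rs Z (sg F b) = z} := by
    intro z
    have h1 : Measurable (fun b : Om Γ => rs Z (sg F b)) :=
      measurable_pi_lambda _ fun v => hsg v.1
    exact h1 (measurableSet_singleton z)
  have htb : ∀ (T : Γ → Rule Γ k t) (v : Γ), Measurable fun b : Om Γ => tb T (sg F b) v := by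
    intro T v
    have h1 : Measurable (fun b : Om Γ => fun u : {u : Γ // u ∈ t} =>
        sh v (sg F b) u.1) := measurable_pi_lambda _ fun u => hsg _
    exact (measurable_of_countable (T v)).comp h1
  have hlaw : ∀ c : Fin A.card → Fin (2 ^ r + 1),
      (PP Γ).real {b | (fun i => dg r (b (en A i))) = c} =
        ∏ i, (volume : Measure unitInterval).real {x | dg r x = c i} := by
    intro c
    rw [← hP.2.2 Γ r A.card (en A) (en_inj _) c]
    congr 1
    ext b
    simp only [Set.mem_ofPred_eq]
    exact funext_iff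
  obtain ⟨g, hg0, hg1, hg2⟩ := cou_prob hC hE (PP Γ) A.card (Fin (2 ^ r + 1))
    (Pat Γ k Z)
    (fun _ s => (volume : Measure unitInterval).real {x | dg r x = s})
    (fun _ s => measureReal_nonneg) (fun _ => by
      have := sum_real (volume : Measure unitInterval) (dg r)
        (fun z => hdg (measurableSet_singleton z)) Set.univ
      simpa using this)
    (fun b i => dg r (b (en A i))) hdm
    (fun b => rs Z (sg F b)) hzm hlaw
  have hcard : Real.log (Fintype.card (Pat Γ k Z)) ≤
      (t.card : ℝ) * ((bd S A).card : ℝ) * Real.log k := by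
    have h1 : Fintype.card (Pat Γ k Z) = k ^ Z.card := by
      rw [← Nat.card_eq_fintype_card, Nat.card_fun, Nat.card_eq_fintype_card,
        Nat.card_eq_fintype_card, Fintype.card_fin, Fintype.card_coe]
    rw [h1]
    push_cast
    rw [Real.log_pow]
    refine mul_le_mul_of_nonneg_right ?_ hk0
    have h2 : Z.card ≤ t.card * (bd (dif W) A).card :=
      Finset.card_image_le.trans (le_of_eq (Finset.card_product _ _))
    have h3 : (bd (dif W) A).card ≤ (bd S A).card :=
      Finset.card_le_card (bd_mono Finset.subset_union_left)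
    have h4 : Z.card ≤ t.card * (bd S A).card := h2.trans (Nat.mul_le_mul_left _ h3)
    exact_mod_cast h4
  have hgg0 : ∀ v, 0 ≤ extc A 0 g v := by
    intro v
    by_cases h : v ∈ A
    · rw [extc_of_mem _ _ _ h]; exact hg0 _
    · rw [extc_of_not_mem _ _ _ h]
  refine ⟨fun v => if v ∈ Dp S A then (t.card : ℝ) * η +
      ∑ u ∈ UT U t, extc A 0 g (u * v) else 1, Dp S A, ?_, ?_, ?_, ?_⟩
  · intro v
    have e2 : 0 ≤ ∑ u ∈ UT U t, extc A 0 g (u * v) :=
      Finset.sum_nonneg fun u _ => hgg0 _
    simp only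
    split_ifs <;> linarith
  · exact eps_sum S A (UT U t) _ g hg0 _ _ ε _ (Nat.cast_nonneg _) hk0 (hg1.trans hcard) hτ0 hη1
  · intro v _ hv
    simp only
    rw [if_neg hv]
  intro T
  -- a default colour
  let d0 : Fin k := F (fun _ => 0)
  let hh : Pat Γ k Z → Pat Γ k (bd (dif W) A) :=
    fun z => rs (bd (dif W) A) (tb T (extP Z (fun _ => inferInstance) d0 z))
  have hhh : ∀ b : Om Γ, hh (rs Z (sg F b)) = rs (bd (dif W) A) (tb T (sg F b)) := by
    intro b
    funext v
    have hv := v.2
    show tb T _ v.1 = tb T _ v.1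
    apply tb_congr
    intro u hu
    apply extP_rs
    exact hZmem u hu v.1 hv
  obtain ⟨κ, k0, k1, k2, k3⟩ := hg2 (Pat Γ k (bd (dif W) A)) (Pat Γ k A) hh
    (fun b => rs A (tb T (sg F b))) (by
      intro u
      have h1 : Measurable (fun b : Om Γ => rs A (tb T (sg F b))) :=
        measurable_pi_lambda _ fun v => htb T v.1
      exact h1 (measurableSet_singleton u))
  simp only [hhh] at k1 k2
  have hDmem : ∀ v ∈ Dp S A, ∀ u ∈ UT U t, u * v ∈ A := by
    intro v hv u hu
    exact (mem_Dp.1 hv).2 u (Finset.mem_union_right _ hu)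
  have hPd : ∀ (b : Om Γ) (v : Γ), v ∈ Dp S A →
      tb T (Gd Fr (extc A 0 (fun i => dg r (b (en A i))))) v =
        tb T (Gd Fr (dd r b)) v := by
    intro b v hv
    apply tb_Gd_congr U Fr hFr
    intro u hu
    exact extc_en A 0 (fun w => dg r (b w)) (hDmem v hv u hu)
  refine ⟨Fin A.card → Fin (2 ^ r + 1), inferInstance,
    fun c => ∏ i, (volume : Measure unitInterval).real {x | dg r x = c i},
    fun c v => tb T (Gd Fr (extc A 0 c)) v, fun l c' u => ∑ c, κ l c c' u,
    ?_, ?_, ?_, ?_, ?_, ?_, ?_⟩
  · intro c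
    exact Finset.prod_nonneg fun i _ => measureReal_nonneg
  · have h1 := sum_real (PP Γ) (fun b i => dg r (b (en A i))) hdm Set.univ
    have h2 : ∀ c : Fin A.card → Fin (2 ^ r + 1),
        {b : Om Γ | b ∈ Set.univ ∧ (fun i => dg r (b (en A i))) = c} =
          {b | (fun i => dg r (b (en A i))) = c} := by
      intro c
      ext b
      simp
    simp only [h2, hlaw] at h1
    rw [h1]
    simp
  · intro l c u
    exact Finset.sum_nonneg fun c' _ => k0 _ _ _ _
  · intro l c' u hne
    obtain ⟨c, _, hc⟩ := Finset.exists_ne_zero_of_sum_ne_zero hne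
    have h1 : κ l c c' u ≤ ∑ c', κ l c c' u :=
      Finset.single_le_sum (f := fun c' => κ l c c' u) (fun c' _ => k0 l c c' u)
        (Finset.mem_univ c')
    rw [k1] at h1
    have h2 : 0 < κ l c c' u := lt_of_le_of_ne (k0 _ _ _ _) (Ne.symm hc)
    refine lt_of_lt_of_le (h2.trans_le h1) (measureReal_mono ?_ (measure_ne_top _ _))
    rintro b ⟨_, hb2, hb3⟩
    exact ⟨hb2, hb3⟩
  · intro l c'
    rw [Finset.sum_comm]
    exact k2 l c'
  · intro v hv hvD
    simp only
    rw [if_pos hvD]
    have h1 := kap_bound κ k0 (UT U t)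
      (fun c u => u ⟨v, hv⟩ = tb T (Gd Fr (extc A 0 c)) v)
      (fun w c c' => extc A 0 c (w * v) = extc A 0 c' (w * v)) (by
        intro c c' u h2 h3
        rw [h2]
        apply tb_Gd_congr U Fr hFr
        exact h3)
    refine h1.trans ?_
    refine add_le_add ?_ ?_
    · simp only [k1]
      rw [sum3 (PP Γ) (fun b i => dg r (b (en A i)))
        (fun b => rs (bd (dif W) A) (tb T (sg F b))) (fun b => rs A (tb T (sg F b))) hdm
        (fun z => by
          have h1 : Measurable (fun b : Om Γ => rs (bd (dif W) A) (tb T (sg F b))) :=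
            measurable_pi_lambda _ fun v => htb T v.1
          exact h1 (measurableSet_singleton z))
        (fun u => by
          have h1 : Measurable (fun b : Om Γ => rs A (tb T (sg F b))) :=
            measurable_pi_lambda _ fun v => htb T v.1
          exact h1 (measurableSet_singleton u))]
      refine le_trans ?_ (err_le hP F Fr η hη T v)
      apply measureReal_mono _ (measure_ne_top _ _)
      intro b hb
      simp only [Set.mem_ofPred_eq] at hb ⊢
      rw [hPd b v hvD] at hb
      exact hb
    · refine Finset.sum_le_sum fun w hw => ?_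
      have h1 : w * v ∈ A := hDmem v hvD w hw
      simp only [extc_of_mem A _ _ h1]
      exact k3 _
  · intro v hv hvD y
    simp only
    rw [if_pos hvD]
    have h1 := sum_if (PP Γ) (fun b i => dg r (b (en A i))) hdm Set.univ
      (fun c => ¬ (tb T (Gd Fr (extc A 0 c)) v = y))
    have h2 : ∀ c : Fin A.card → Fin (2 ^ r + 1),
        {b : Om Γ | b ∈ Set.univ ∧ (fun i => dg r (b (en A i))) = c} =
          {b | (fun i => dg r (b (en A i))) = c} := by
      intro c
      ext b
      simp
    simp only [h2, hlaw] at h1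
    have h3 : ∀ c : Fin A.card → Fin (2 ^ r + 1),
        (∏ i, (volume : Measure unitInterval).real {x | dg r x = c i}) *
          (if tb T (Gd Fr (extc A 0 c)) v = y then (0 : ℝ) else 1) =
        if ¬ (tb T (Gd Fr (extc A 0 c)) v = y) then
          ∏ i, (volume : Measure unitInterval).real {x | dg r x = c i} else 0 := by
      intro c
      split_ifs <;> simp_all
    simp only [h3]
    rw [h1]
    have h4 : (PP Γ).real {b : Om Γ | b ∈ Set.univ ∧
        ¬ tb T (Gd Fr (extc A 0 fun i => dg r (b (en A i)))) v = y} ≤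
        (PP Γ).real {b | tb T (sg F b) v ≠ y} +
          (PP Γ).real {b | tb T (sg F b) v ≠ tb T (Gd Fr (dd r b)) v} := by
      refine le_trans (measureReal_mono ?_ (measure_ne_top _ _)) (measureReal_union_le _ _)
      intro b hb
      simp only [Set.mem_ofPred_eq, Set.mem_univ, true_and] at hb
      rw [hPd b v hvD] at hb
      by_cases h5 : tb T (sg F b) v = y
      · right
        simp only [Set.mem_ofPred_eq]
        rw [h5]
        exact fun h6 => hb h6.symm
      · left
        exact h5
    have h5 := err_le hP F Fr η hη T v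
    have e2 : 0 ≤ ∑ u ∈ UT U t, extc A 0 g (u * v) :=
      Finset.sum_nonneg fun u _ => hgg0 _
    linarith

end Pool.Agent.Y314.AM

end
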