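import Pool.Agent.Y451.AM.Stm
import Pool.Agent.Y314.FM.Cpl

set_option autoImplicit false

open MeasureTheory

noncomputable section

namespace Pool.Agent.Y314.AM

open Pool.Agent.Y451.AM
open Pool.Agent.Y451.FM (dg)

/-- configuration from digits -/
def Gd {Γ : Type} [Group Γ] {k r : ℕ} (Fr : (Γ → Fin (2 ^ r + 1)) → Fin k)
    (d : Γ → Fin (2 ^ r + 1)) : Γ → Fin k := fun w => Fr (sh w d)

/-- the digits -/
def dd {Γ : Type} (r : ℕ) (b : Om Γ) : Γ → Fin (2 ^ r + 1) := fun v => dg r (b v)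

theorem tb_congr {Γ : Type} [Group Γ] {k : ℕ} {t : Finset Γ} (T : Γ → Rule Γ k t)
    (w w' : Γ → Fin k) (v : Γ) (h : ∀ u ∈ t, w (u * v) = w' (u * v)) : tb T w v = tb T w' v := by
  unfold tb ev sh
  congr 1
  funext u
  exact h u.1 u.2

open Classical in
/-- the products of the elements of two finite sets -/
def UT {Γ : Type} [Group Γ] (U t : Finset Γ) : Finset Γ := (U ×ˢ t).image fun p => p.1 * p.2

theorem mem_UT {Γ : Type} [Group Γ] {U t : Finset Γ} {s u : Γ} (hs : s ∈ U) (hu : u ∈ t) :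
    s * u ∈ UT U t := by
  classical
  unfold UT
  rw [Finset.mem_image]
  exact ⟨(s, u), Finset.mem_product.2 ⟨hs, hu⟩, rfl⟩

theorem tb_Gd_congr {Γ : Type} [Group Γ] {k r : ℕ} {t : Finset Γ} (U : Finset Γ)
    (Fr : (Γ → Fin (2 ^ r + 1)) → Fin k)
    (hFr : ∀ c c' : Γ → Fin (2 ^ r + 1), (∀ v ∈ U, c v = c' v) → Fr c = Fr c')
    (T : Γ → Rule Γ k t) (d d' : Γ → Fin (2 ^ r + 1)) (v : Γ)
    (h : ∀ u ∈ UT U t, d (u * v) = d' (u * v)) : tb T (Gd Fr d) v = tb T (Gd Fr d') v := by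
  apply tb_congr
  intro u hu
  unfold Gd
  apply hFr
  intro s hs
  unfold sh
  have := h (s * u) (mem_UT hs hu)
  rw [← mul_assoc]
  exact this

theorem err_le {Γ : Type} [Group Γ] [Countable Γ] {k r : ℕ} {t : Finset Γ} (hP : S_PRD)
    (F : Om Γ → Fin k)
    (Fr : (Γ → Fin (2 ^ r + 1)) → Fin k) (η : ℝ)
    (hη : (PP Γ).real {b | F b ≠ Fr (fun v => dg r (b v))} ≤ η) (T : Γ → Rule Γ k t)
    (v : Γ) :
    (PP Γ).real {b | tb T (sg F b) v ≠ tb T (Gd Fr (dd r b)) v} ≤ (t.card : ℝ) * η := by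
  have h1 : {b | tb T (sg F b) v ≠ tb T (Gd Fr (dd r b)) v} ⊆
      ⋃ u ∈ t, (sh (u * v)) ⁻¹' {b | F b ≠ Fr (fun v => dg r (b v))} := by
    intro b hb
    simp only [Set.mem_iUnion]
    by_contra hc
    push Not at hc
    apply hb
    apply tb_congr
    intro u hu
    have := hc u hu
    simp only [Set.mem_preimage, Set.mem_ofPred_eq, not_not] at this
    exact this
  calc (PP Γ).real {b | tb T (sg F b) v ≠ tb T (Gd Fr (dd r b)) v}
      ≤ (PP Γ).real (⋃ u ∈ t, (sh (u * v)) ⁻¹' {b | F b ≠ Fr (fun v => dg r (b v))}) :=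
        measureReal_mono h1 (measure_ne_top _ _)
    _ ≤ ∑ u ∈ t, (PP Γ).real ((sh (u * v)) ⁻¹' {b | F b ≠ Fr (fun v => dg r (b v))}) :=
        measureReal_biUnion_finset_le _ _
    _ ≤ ∑ u ∈ t, η := by
        refine Finset.sum_le_sum fun u _ => ?_
        refine le_trans ?_ hη
        have h2 := hP.2.1 Γ (u * v)
        have h3 := Measure.le_map_apply (μ := PP Γ) h2.measurable.aemeasurable
          {b | F b ≠ Fr (fun v => dg r (b v))}
        rw [h2.map_eq] at h3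
        exact ENNReal.toReal_mono (measure_ne_top _ _) h3
    _ = (t.card : ℝ) * η := by rw [Finset.sum_const, nsmul_eq_mul]

/-- sums of shifts of a nonnegative function supported on a finite set -/
theorem sum_shift_le {Γ : Type} [Group Γ] (E : Finset Γ) (gg : Γ → ℝ) (h0 : ∀ v, 0 ≤ gg v)
    (h1 : ∀ v, v ∉ E → gg v = 0) (u : Γ) : ∑ v ∈ E, gg (u * v) ≤ ∑ v ∈ E, gg v := by
  classical
  have h2 : ∑ v ∈ E, gg (u * v) = ∑ w ∈ E.image (fun v => u * v), gg w := by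
    rw [Finset.sum_image]
    intro a _ b _ hab
    exact mul_left_cancel hab
  rw [h2]
  have h3 : ∑ w ∈ E.image (fun v => u * v), gg w = ∑ w ∈ (E.image (fun v => u * v)) ∩ E, gg w := by
    symm
    apply Finset.sum_subset Finset.inter_subset_left
    intro x hx hx2
    apply h1
    intro hx3
    exact hx2 (Finset.mem_inter.2 ⟨hx, hx3⟩)
  rw [h3]
  exact Finset.sum_le_sum_of_subset_of_nonneg Finset.inter_subset_right (fun x _ _ => h0 x)

open Classical in
/-- extension of a vector indexed by the points of a finite set -/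
def extc {Γ : Type} {α : Type} (E : Finset Γ) (d : α) (c : Fin E.card → α) : Γ → α :=
  fun w => if h : w ∈ E then c (E.equivFin ⟨w, h⟩) else d

theorem extc_of_mem {Γ : Type} {α : Type} (E : Finset Γ) (d : α) (c : Fin E.card → α)
    {w : Γ} (h : w ∈ E) : extc E d c w = c (E.equivFin ⟨w, h⟩) := by
  unfold extc
  rw [dif_pos h]

theorem extc_of_not_mem {Γ : Type} {α : Type} (E : Finset Γ) (d : α) (c : Fin E.card → α)
    {w : Γ} (h : w ∉ E) : extc E d c w = d := by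
  unfold extc
  rw [dif_neg h]

/-- enumeration -/
def en {Γ : Type} (E : Finset Γ) (i : Fin E.card) : Γ := (E.equivFin.symm i).1

theorem en_inj {Γ : Type} (E : Finset Γ) : Function.Injective (en E) := by
  intro i j h
  unfold en at h
  exact E.equivFin.symm.injective (Subtype.ext h)

theorem extc_en {Γ : Type} {α : Type} (E : Finset Γ) (d : α) (f : Γ → α)
    {w : Γ} (h : w ∈ E) : extc E d (fun i => f (en E i)) w = f w := by
  rw [extc_of_mem E d _ h]
  unfold en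
  rw [Equiv.symm_apply_apply]

theorem sum_extc {Γ : Type} (E : Finset Γ) (c : Fin E.card → ℝ) (φ : ℝ → ℝ) :
    ∑ w ∈ E, φ (extc E 0 c w) = ∑ i, φ (c i) := by
  rw [← Finset.sum_coe_sort E]
  rw [← E.equivFin.sum_comp]
  refine Finset.sum_congr rfl fun w _ => ?_
  rw [extc_of_mem E 0 c w.2]

open Classical in
/-- the deep points -/
def Dp {Γ : Type} [Group Γ] (S A : Finset Γ) : Finset Γ := A \ bd S A

theorem mem_Dp {Γ : Type} [Group Γ] {S A : Finset Γ} {v : Γ} :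
    v ∈ Dp S A ↔ v ∈ A ∧ ∀ s ∈ S, s * v ∈ A := by
  classical
  unfold Dp bd
  rw [Finset.mem_sdiff, Finset.mem_filter]
  constructor
  · rintro ⟨h1, h2⟩
    refine ⟨h1, fun s hs => ?_⟩
    by_contra h3
    exact h2 ⟨h1, s, hs, h3⟩
  · rintro ⟨h1, h2⟩
    refine ⟨h1, ?_⟩
    rintro ⟨_, s, hs, h3⟩
    exact h3 (h2 s hs)

theorem bd_mono {Γ : Type} [Group Γ] {S S' A : Finset Γ} (h : S ⊆ S') : bd S A ⊆ bd S' A := by
  classical
  unfold bd
  intro v hv
  rw [Finset.mem_filter] at hv ⊢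
  obtain ⟨h1, s, hs, h2⟩ := hv
  exact ⟨h1, s, h hs, h2⟩

/-- the sum of the errors -/
theorem eps_sum {Γ : Type} [Group Γ] (S A UU : Finset Γ) (dec : ∀ v, Decidable (v ∈ Dp S A))
    (g : Fin A.card → ℝ) (hg : ∀ i, 0 ≤ g i) (x lk ε τη : ℝ) (hx : 0 ≤ x) (hlk : 0 ≤ lk)
    (ha : ∑ i, g i ^ 2 ≤ x * ((bd S A).card : ℝ) * lk) (hη : 0 ≤ τη) (hη' : τη ≤ ε) :
    ∑ v ∈ A, (if v ∈ Dp S A then τη + ∑ u ∈ UU, extc A 0 g (u * v) else 1) ≤
      bnd S (1 + (UU.card : ℝ) * Real.sqrt (x * lk)) ε A := by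
  classical
  have hgg0 : ∀ v, 0 ≤ extc A 0 g v := by
    intro v
    by_cases h : v ∈ A
    · rw [extc_of_mem _ _ _ h]; exact hg _
    · rw [extc_of_not_mem _ _ _ h]
  have hgg1 : ∀ v, v ∉ A → extc A 0 g v = 0 := fun v h => extc_of_not_mem _ _ _ h
  have e1 : ∀ v ∈ A, (if v ∈ Dp S A then τη + ∑ u ∈ UU, extc A 0 g (u * v) else 1) ≤
      τη + ∑ u ∈ UU, extc A 0 g (u * v) + (if v ∈ bd S A then 1 else 0) := by
    intro v hv
    have e2 : 0 ≤ ∑ u ∈ UU, extc A 0 g (u * v) :=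
      Finset.sum_nonneg fun u _ => hgg0 _
    by_cases h1 : v ∈ Dp S A
    · rw [if_pos h1]
      split_ifs <;> linarith
    · rw [if_neg h1]
      have h2 : v ∈ bd S A := by
        by_contra h3
        exact h1 (Finset.mem_sdiff.2 ⟨hv, h3⟩)
      rw [if_pos h2]
      linarith
  refine (Finset.sum_le_sum e1).trans ?_
  rw [Finset.sum_add_distrib, Finset.sum_add_distrib, Finset.sum_const, nsmul_eq_mul]
  have hbdA : bd S A ⊆ A := by
    unfold bd
    exact Finset.filter_subset _ _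
  have e4 : ∑ v ∈ A, (if v ∈ bd S A then (1 : ℝ) else 0) = ((bd S A).card : ℝ) := by
    rw [← Finset.sum_filter, Finset.filter_mem_eq_inter, Finset.inter_eq_right.2 hbdA,
      Finset.sum_const, nsmul_eq_mul, mul_one]
  have e5 : ∑ v ∈ A, ∑ u ∈ UU, extc A 0 g (u * v) ≤
      (UU.card : ℝ) * (Real.sqrt (x * lk) * Real.sqrt ((A.card : ℝ) * ((bd S A).card : ℝ))) := by
    rw [Finset.sum_comm]
    have e6 : ∑ u ∈ UU, ∑ v ∈ A, extc A 0 g (u * v) ≤
        ∑ u ∈ UU, ∑ v ∈ A, extc A 0 g v :=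
      Finset.sum_le_sum fun u _ => sum_shift_le _ _ hgg0 hgg1 u
    refine e6.trans ?_
    rw [Finset.sum_const, nsmul_eq_mul]
    refine mul_le_mul_of_nonneg_left ?_ (Nat.cast_nonneg _)
    have e7 := sq_sum_le_card_mul_sum_sq (s := A) (f := extc A 0 g)
    have e8 := sum_extc A g (fun x => x ^ 2)
    rw [e8] at e7
    rw [← Real.sqrt_mul (by positivity)]
    apply Real.le_sqrt_of_sq_le
    refine e7.trans ((mul_le_mul_of_nonneg_left ha (Nat.cast_nonneg _)).trans (le_of_eq ?_))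
    ring
  have e9 : (0 : ℝ) ≤ (A.card : ℝ) := Nat.cast_nonneg _
  have e10 : (0 : ℝ) ≤ Real.sqrt ((A.card : ℝ) * ((bd S A).card : ℝ)) := Real.sqrt_nonneg _
  have e11 : (0 : ℝ) ≤ (UU.card : ℝ) * Real.sqrt (x * lk) * ((bd S A).card : ℝ) := by positivity
  have e12 : (A.card : ℝ) * τη ≤ ε * (A.card : ℝ) := by nlinarith
  unfold bnd
  rw [e4]
  nlinarith

/-- extension of a pattern -/
def extP {Γ : Type} {k : ℕ} (A : Finset Γ) (dec : ∀ v, Decidable (v ∈ A)) (d : Fin k)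
    (z : Pat Γ k A) : Γ → Fin k :=
  fun w => if h : w ∈ A then z ⟨w, h⟩ else d

theorem extP_rs {Γ : Type} {k : ℕ} (A : Finset Γ) (dec : ∀ v, Decidable (v ∈ A)) (d : Fin k)
    (w : Γ → Fin k) {v : Γ} (h : v ∈ A) : extP A dec d (rs A w) v = w v := by
  unfold extP rs
  rw [dif_pos h]

end Pool.Agent.Y314.AM

end
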